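import Mathlib
import Pool.Agent.Helper634ord.Tub13

/-!
# MP_ac5134: tubes near null sets closed under an order operation

An order operation is a map `f : ℝ ^ k → ℝ` which commutes with all nondecreasing maps of the real
line (minimum, maximum, median, every lattice polynomial).  A set is closed under `f` within distance
`ρ` if `f`, applied to the coordinates (in some orthonormal basis) of `k` points of the set at mutual
distances at most `ρ`, gives a point of the set.

After scaling by `N ^ (-2)` the boxes `θ*` of the problem become tubes of length `1` and radius `1 / N`.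
Let `K` be a null set which is closed under an order operation that is not a projection (or such that
the coordinatewise minima, or the maxima, of `n` points of `K` at mutual distances at most `ρ` form a
null set).  Then for almost every direction every line in this direction meets `K` in a set of length
zero.  If `K` is compact, then for almost every direction `u`, uniformly in all translates `T` of the
tubes with directions `e`, `|e - u| ≤ A / N`, the proportion of `T` in the `A / N`-neighbourhood of `K`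
tends to zero as `N → ∞`.

For general null sets (Besicovitch) the proportion can be `1` for all directions.
-/

set_option autoImplicit false

open MeasureTheory Set Metric
open scoped ENNReal

namespace Pool.Agent.Results.MP_ac5134_an.NullOrderClosed

open Pool.Agent.Helper634ord (OrderOperation IsProjection BoxLCS)
open Pool.Agent.Helper634ord.Tub (crd)

/-- Euclidean space `ℝ^n`. -/
abbrev E (n : ℕ) : Type := EuclideanSpace ℝ (Fin n)

/-- The closed cylinder of length `1` and radius `δ` with centre `a` and axis in direction `e`. -/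
def tube {n : ℕ} (δ : ℝ) (a e : E n) : Set (E n) :=
  {y | |inner ℝ (y - a) e| ≤ 1 / 2 ∧ ‖(y - a) - (inner ℝ (y - a) e : ℝ) • e‖ ≤ δ}

/-- The coordinatewise minima of `n` points of `G` at mutual distances at most `ρ`, in the coordinates
of the orthonormal basis `b`. -/
def Minima {n : ℕ} (ρ : ℝ) (b : OrthonormalBasis (Fin n) ℝ (E n)) (G : Set (E n)) : Set (E n) :=
  {x | ∃ p : Fin n → E n, (∀ c, p c ∈ G) ∧ (∀ c c', dist (p c) (p c') ≤ ρ) ∧
    ∀ i, IsLeast (range fun c => b.repr (p c) i) (b.repr x i)}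

/-- The coordinatewise maxima of `n` points of `G` at mutual distances at most `ρ`, in the coordinates
of the orthonormal basis `b`. -/
def Maxima {n : ℕ} (ρ : ℝ) (b : OrthonormalBasis (Fin n) ℝ (E n)) (G : Set (E n)) : Set (E n) :=
  {x | ∃ p : Fin n → E n, (∀ c, p c ∈ G) ∧ (∀ c c', dist (p c) (p c') ≤ ρ) ∧
    ∀ i, IsGreatest (range fun c => b.repr (p c) i) (b.repr x i)}

/-- The set `G` is closed under `f`, applied to points of `G` at mutual distances at most `ρ` (to the
coordinates with respect to the orthonormal basis `b`). -/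
def ClosedWithin {n k : ℕ} (ρ : ℝ) (b : OrthonormalBasis (Fin n) ℝ (E n)) (G : Set (E n))
    (f : (Fin k → ℝ) → ℝ) : Prop :=
  ∀ c : Fin k → E n, (∀ j, c j ∈ G) → (∀ i j, dist (c i) (c j) ≤ ρ) →
    ∃ x ∈ G, ∀ i, b.repr x i = f (fun j => b.repr (c j) i)

/-- `G` is closed, in some orthonormal basis and within distance `ρ`, under some order operation which
is not a projection. -/
def OrderClosed {n : ℕ} (ρ : ℝ) (G : Set (E n)) : Prop :=
  ∃ (k : ℕ) (f : (Fin k → ℝ) → ℝ), OrderOperation f ∧ ¬ IsProjection f ∧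
    ∃ b : OrthonormalBasis (Fin n) ℝ (E n), ClosedWithin ρ b G f

/-- cubes of side `ℓ` with `√n ℓ ≤ ρ` -/
theorem boxLCS {n : ℕ} {ρ ℓ : ℝ} (hℓ : 0 ≤ ℓ) (hρ : Real.sqrt n * ℓ ≤ ρ) {k : ℕ}
    {b : OrthonormalBasis (Fin n) ℝ (E n)} {G : Set (E n)} {f : (Fin k → ℝ) → ℝ}
    (hf : OrderOperation f) (hp : ¬ IsProjection f) (h : ClosedWithin ρ b G f) :
    BoxLCS (crd b '' G) ℓ := by
  intro a
  apply Pool.Agent.Helper634ord.closed_cases hf hp
  intro c hc
  choose g hg hgc using fun j => (hc j).1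
  have hrepr : ∀ j i, b.repr (g j) i = c j i := fun j i => congrFun (hgc j) i
  obtain ⟨x, hx, hxf⟩ := h g hg (by
    intro i j
    rw [← b.repr.dist_map]
    refine le_trans (Pool.Agent.Helper634ord.dist_cube hℓ ?_) hρ
    intro m
    rw [hrepr, hrepr]
    have h1 := (hc i).2 m
    have h2 := (hc j).2 m
    rw [abs_le]
    constructor <;> linarith [h1.1, h1.2, h2.1, h2.2])
  refine ⟨⟨x, hx, ?_⟩, ?_⟩
  · funext i
    show b.repr x i = f (fun j => c j i)
    rw [hxf i]
    congr 1
    funext j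
    exact hrepr j i
  · intro i
    obtain ⟨j, hj⟩ := Pool.Agent.Helper634ord.mem_range hf (fun j => c j i)
    show a i ≤ f (fun j => c j i) ∧ f (fun j => c j i) ≤ a i + ℓ
    rw [hj]
    exact (hc j).2 i

theorem tube_near {n : ℕ} {δ : ℝ} (hδ : δ ≤ 1) {a e y y' : E n} (he : ‖e‖ = 1)
    (hy : y ∈ tube δ a e) (hy' : y' ∈ tube δ a e) : ‖y - y'‖ ≤ 3 := by
  have h1 : y - y' = ((inner ℝ (y - a) e : ℝ) - inner ℝ (y' - a) e) • e +
      (((y - a) - (inner ℝ (y - a) e : ℝ) • e) - ((y' - a) - (inner ℝ (y' - a) e : ℝ) • e)) := by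
    rw [sub_smul]
    abel
  rw [h1]
  refine (norm_add_le _ _).trans ?_
  rw [norm_smul, he, mul_one, Real.norm_eq_abs]
  have h2 := abs_sub (inner ℝ (y - a) e : ℝ) (inner ℝ (y' - a) e)
  have h3 := norm_sub_le ((y - a) - (inner ℝ (y - a) e : ℝ) • e)
    ((y' - a) - (inner ℝ (y' - a) e : ℝ) • e)
  linarith [hy.1, hy.2, hy'.1, hy'.2]

/-- Every line parallel to `w` meets `K` in a set of length zero. -/
def NullOnLines {n : ℕ} (K : Set (E n)) (w : E n) : Prop :=
  ∀ a : E n, volume {t : ℝ | a + t • w ∈ K} = 0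

/-- the limit case -/
theorem limit_case (n : ℕ) (hn : 1 ≤ n) {ρ : ℝ} (hρ : 0 < ρ) (hρ1 : ρ ≤ 1) {K : Set (E n)}
    (hK : MeasurableSet K)
    (h : (∃ b : OrthonormalBasis (Fin n) ℝ (E n),
      volume (Minima ρ b K) = 0 ∨ volume (Maxima ρ b K) = 0) ∨ (OrderClosed ρ K ∧ volume K = 0)) :
    ∀ᵐ w : E n, NullOnLines K w := by
  by_contra hcon
  rw [ae_iff] at hcon
  have hset : {w : E n | ¬ NullOnLines K w} =
      {w : E n | ∃ a, volume {t : ℝ | a + t • w ∈ K} ≠ 0} := by
    ext w
    simp only [NullOnLines, mem_ofPred_eq, not_forall, ne_eq]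
  rw [hset] at hcon
  have hn0 : (0 : ℝ) < n := by exact_mod_cast hn
  have hn1 : (1 : ℝ) ≤ n := by exact_mod_cast hn
  set lam : ℝ := ρ / (4 * (n : ℝ)) with hlam
  have hlam0 : 0 < lam := by positivity
  have hlamn : 4 * lam * n = ρ := by
    rw [hlam]
    field_simp
  have hlam1 : lam ≤ 1 := by nlinarith
  have hsqrt : Real.sqrt n * (4 * lam) ≤ ρ := by
    have h1 : Real.sqrt n ≤ n := by
      rw [Real.sqrt_le_left (by positivity)]
      nlinarith
    calc Real.sqrt n * (4 * lam) ≤ n * (4 * lam) := mul_le_mul_of_nonneg_right h1 (by positivity)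
      _ = ρ := by rw [← hlamn]; ring
  have hdist : ∀ (b : OrthonormalBasis (Fin n) ℝ (E n)) (q : Fin n → E n)
      (p : Fin n → Fin n → ℝ), (∀ c, crd b (q c) = p c) → (∀ c c' i, |p c i - p c' i| ≤ 4 * lam) →
      ∀ c c', dist (q c) (q c') ≤ ρ := by
    intro b q p hqp hp c c'
    rw [← b.repr.dist_map]
    refine le_trans (Pool.Agent.Helper634ord.dist_cube (by positivity) (fun i => ?_)) hsqrt
    have h1 : ∀ c, b.repr (q c) i = p c i := fun c => congrFun (hqp c) i
    rw [h1, h1]
    exact hp c c' i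
  have hpos : ∀ ε : ℝ, 0 < ε → ENNReal.ofReal (ε ^ n) ≠ 0 := by
    intro ε hε
    rw [ne_eq, ENNReal.ofReal_eq_zero, not_le]
    positivity
  rcases h with ⟨b, hb⟩ | ⟨⟨k, f, hf, hfp, b, hb⟩, h0⟩
  · obtain ⟨ε, hε0, hmin, hmx, -⟩ :=
      Pool.Agent.Helper634ord.Tub.null_lines hn hlam0 hlam1 hK b hcon
    rcases hb with hb | hb
    · apply hpos ε hε0
      refine le_antisymm (hmin.trans (le_trans ?_ hb.le)) zero_le
      rw [← Pool.Agent.Helper634ord.Tub.vol_crd b]
      apply measure_mono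
      rintro y ⟨p, hp, hpd, hpm⟩
      choose q hq hqp using hp
      refine ⟨q, hq, hdist b q p hqp hpd, fun i => ?_⟩
      have h1 : ∀ c, b.repr (q c) i = p c i := fun c => congrFun (hqp c) i
      constructor
      · exact ⟨i, by
          show b.repr (q i) i = crd b y i
          rw [h1, (hpm i).1]⟩
      · rintro _ ⟨c, rfl⟩
        show crd b y i ≤ b.repr (q c) i
        rw [h1]
        exact (hpm i).2 c
    · apply hpos ε hε0
      refine le_antisymm (hmx.trans (le_trans ?_ hb.le)) zero_le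
      rw [← Pool.Agent.Helper634ord.Tub.vol_crd b]
      apply measure_mono
      rintro y ⟨p, hp, hpd, hpm⟩
      choose q hq hqp using hp
      refine ⟨q, hq, hdist b q p hqp hpd, fun i => ?_⟩
      have h1 : ∀ c, b.repr (q c) i = p c i := fun c => congrFun (hqp c) i
      constructor
      · exact ⟨i, by
          show b.repr (q i) i = crd b y i
          rw [h1, (hpm i).1]⟩
      · rintro _ ⟨c, rfl⟩
        show b.repr (q c) i ≤ crd b y i
        rw [h1]
        exact (hpm i).2 c
  · obtain ⟨ε, hε0, -, -, hcl⟩ :=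
      Pool.Agent.Helper634ord.Tub.null_lines hn hlam0 hlam1 hK b hcon
    apply hpos ε hε0
    refine le_antisymm ((hcl (boxLCS (by positivity) hsqrt hf hfp hb)).trans ?_) zero_le
    rw [← Pool.Agent.Helper634ord.Tub.vol_crd b,
      preimage_image_eq _ (Pool.Agent.Helper634ord.Tub.crd_injective b), h0]


/-- tubes in a fixed direction -/
theorem tubes_small {n : ℕ} {K : Set (E n)} (hK : IsCompact K) {e : E n} (he : ‖e‖ = 1)
    (h0 : ∀ a, volume {t : ℝ | a + t • e ∈ K} = 0) {lam' : ℝ} (hlam : 0 < lam') :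
    ∃ δ₀ : ℝ, 0 < δ₀ ∧ ∀ δ : ℝ, δ ≤ δ₀ → ∀ a : E n,
      volume (tube δ a e ∩ cthickening δ K) ≤ ENNReal.ofReal lam' * volume (tube δ a e) := by
  obtain ⟨R, hR⟩ := (hK.isBounded.cthickening (δ := 1)).subset_closedBall (0 : E n)
  obtain ⟨δ₀, hδ₀, hsmall⟩ := Pool.Agent.Helper634ord.Tub.times_small hK h0 hlam (R + 3)
  refine ⟨min δ₀ 1, lt_min hδ₀ one_pos, ?_⟩
  intro δ hδ a
  have hδ1 : δ ≤ 1 := hδ.trans (min_le_right _ _)
  have hδ2 : δ ≤ δ₀ := hδ.trans (min_le_left _ _)
  have hcl : MeasurableSet (cthickening δ K) := isClosed_cthickening.measurableSet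
  have hee : (inner ℝ e e : ℝ) = 1 := by
    rw [real_inner_self_eq_norm_sq, he]
    norm_num
  set T := tube δ a e with hT
  have hTm : MeasurableSet T := by
    have hcont : Continuous (fun y : E n => (inner ℝ (y - a) e : ℝ)) := by fun_prop
    have hcont2 : Continuous (fun y : E n => ‖(y - a) - (inner ℝ (y - a) e : ℝ) • e‖) := by fun_prop
    apply IsClosed.measurableSet
    exact (isClosed_le hcont.abs continuous_const).inter (isClosed_le hcont2 continuous_const)
  by_contra hcon
  rw [not_le] at hcon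
  have h2 : ENNReal.ofReal lam' * volume T < volume (T ∩ cthickening δ K) := hcon
  have hTK : volume (T ∩ cthickening δ K) ≠ 0 := (lt_of_le_of_lt zero_le h2).ne'
  obtain ⟨y, hy, hyv⟩ := Pool.Agent.Helper634ord.Tub.seg_of_density_low hTm hcl (e := e) (by
    intro z hz
    refine ⟨(inner ℝ (z - a) e : ℝ) - 1 / 2, ?_⟩
    intro t ht
    have h3 := abs_le.1 hz.1
    have h4 : z + -(t • e) - a = (z - a) - t • e := by abel
    have h5 : (inner ℝ (z + -(t • e) - a) e : ℝ) = inner ℝ (z - a) e - t := by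
      rw [h4, inner_sub_left, real_inner_smul_left, hee, mul_one]
    refine ⟨⟨by linarith [ht.1, h3.1], by linarith [ht.2, h3.2]⟩, ?_, ?_⟩
    · show |inner ℝ (z + -(t • e) - a) e| ≤ 1 / 2
      rw [h5, abs_le]
      constructor <;> linarith [ht.1, ht.2]
    · show ‖(z + -(t • e) - a) - (inner ℝ (z + -(t • e) - a) e : ℝ) • e‖ ≤ δ
      have h6 : (z + -(t • e) - a) - (inner ℝ (z + -(t • e) - a) e : ℝ) • e =
          (z - a) - (inner ℝ (z - a) e : ℝ) • e := by
        rw [h5, h4, sub_smul]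
        abel
      rw [h6]
      exact hz.2) h2
  obtain ⟨z, hzT, hzK⟩ := nonempty_of_measure_ne_zero hTK
  have h3 : ‖y‖ ≤ R + 3 := by
    have h4 := tube_near hδ1 he hy hzT
    have h5 : ‖z‖ ≤ R := by
      have := hR (cthickening_mono hδ1 K hzK)
      rwa [mem_closedBall, dist_zero_right] at this
    calc ‖y‖ = ‖(y - z) + z‖ := by rw [sub_add_cancel]
      _ ≤ ‖y - z‖ + ‖z‖ := norm_add_le _ _
      _ ≤ R + 3 := by linarith
  exact absurd hyv (not_le.2 (hsmall δ hδ2 y h3))

/-- nearest point on a line -/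
theorem perp_le {n : ℕ} {e : E n} (he : ‖e‖ = 1) (x : E n) (s : ℝ) :
    ‖x - (inner ℝ x e : ℝ) • e‖ ≤ ‖x - s • e‖ := by
  have hee : (inner ℝ e e : ℝ) = 1 := by
    rw [real_inner_self_eq_norm_sq, he]
    norm_num
  rw [← pow_le_pow_iff_left₀ (norm_nonneg _) (norm_nonneg _) two_ne_zero]
  have h1 : x - s • e = (x - (inner ℝ x e : ℝ) • e) + ((inner ℝ x e : ℝ) - s) • e := by
    rw [sub_smul]
    abel
  have h2 : (inner ℝ (x - (inner ℝ x e : ℝ) • e) (((inner ℝ x e : ℝ) - s) • e) : ℝ) = 0 := by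
    rw [real_inner_smul_right, inner_sub_left, real_inner_smul_left, hee]
    ring
  rw [h1, norm_add_sq_real, h2]
  nlinarith [sq_nonneg ‖((inner ℝ x e : ℝ) - s) • e‖]

theorem norm_le_of_mem {n : ℕ} {δ : ℝ} (hδ : δ ≤ 1) {a e y : E n} (he : ‖e‖ = 1)
    (hy : y ∈ tube δ a e) : ‖y - a‖ ≤ 2 := by
  have h1 : y - a = (inner ℝ (y - a) e : ℝ) • e + ((y - a) - (inner ℝ (y - a) e : ℝ) • e) := by
    abel
  rw [h1]
  refine (norm_add_le _ _).trans ?_
  rw [norm_smul, he, mul_one, Real.norm_eq_abs]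
  linarith [hy.1, hy.2]

/-- tubes are translates of each other -/
theorem vol_translate {n : ℕ} (δ : ℝ) (a c e : E n) :
    volume (tube δ c e) = volume (tube δ a e) := by
  have h : tube δ c e = (fun y => y + (a - c)) ⁻¹' tube δ a e := by
    ext y
    have h1 : y + (a - c) - a = y - c := by abel
    show (|inner ℝ (y - c) e| ≤ 1 / 2 ∧ ‖(y - c) - (inner ℝ (y - c) e : ℝ) • e‖ ≤ δ) ↔
      (|inner ℝ (y + (a - c) - a) e| ≤ 1 / 2 ∧
        ‖(y + (a - c) - a) - (inner ℝ (y + (a - c) - a) e : ℝ) • e‖ ≤ δ)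
    rw [h1]
  rw [h, measure_preimage_add_right]

/-- distance to a line with a slightly different direction -/
theorem perp_near {n : ℕ} {e u : E n} (he : ‖e‖ = 1) (x : E n) {κ : ℝ} (hκ : ‖e - u‖ ≤ κ) :
    ‖x - (inner ℝ x e : ℝ) • e‖ ≤ ‖x - (inner ℝ x u : ℝ) • u‖ + |(inner ℝ x u : ℝ)| * κ := by
  refine (perp_le he x (inner ℝ x u)).trans ?_
  have h1 : x - (inner ℝ x u : ℝ) • e = (x - (inner ℝ x u : ℝ) • u) - (inner ℝ x u : ℝ) • (e - u) := by
    rw [smul_sub]
    abel
  rw [h1]
  refine (norm_sub_le _ _).trans ?_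
  rw [norm_smul, Real.norm_eq_abs]
  have := mul_le_mul_of_nonneg_left hκ (abs_nonneg (inner ℝ x u : ℝ))
  linarith

/-- comparison of the volumes of tubes -/
theorem vol_compare {n : ℕ} {A δ : ℝ} (hA : 0 ≤ A) (hδ : 0 < δ) (hδ1 : (2 * A + 2) * δ ≤ 1)
    {a u e : E n} (hu : ‖u‖ = 1) (he : ‖e‖ = 1) (heu : ‖e - u‖ ≤ A * δ) :
    ENNReal.ofReal ((1 / (4 * (A + 1))) ^ n) * volume (tube ((2 * A + 2) * δ) a u) ≤
      volume (tube δ a e) := by
  set r : ℝ := 1 / (4 * (A + 1)) with hr
  have hr0 : 0 < r := by positivity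
  have hr4 : r * (4 * (A + 1)) = 1 := by
    rw [hr]
    field_simp
  have hr1 : r ≤ 1 / 4 := by nlinarith
  have h1 : AffineMap.homothety a r '' tube ((2 * A + 2) * δ) a u ⊆ tube δ a e := by
    rintro _ ⟨y, hy, rfl⟩
    have h2 : (AffineMap.homothety a r) y - a = r • (y - a) := by
      rw [AffineMap.homothety_apply]
      simp only [vsub_eq_sub, vadd_eq_add]
      abel
    have h3 := norm_le_of_mem hδ1 hu hy
    have h4 : |(inner ℝ (y - a) e : ℝ)| ≤ 2 := by
      have := abs_real_inner_le_norm (y - a) e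
      rw [he, mul_one] at this
      linarith
    have h5 := perp_near he (y - a) heu
    have h6 : |(inner ℝ (y - a) u : ℝ)| * (A * δ) ≤ 1 / 2 * (A * δ) :=
      mul_le_mul_of_nonneg_right hy.1 (by positivity)
    have h7 := hy.2
    show |inner ℝ ((AffineMap.homothety a r) y - a) e| ≤ 1 / 2 ∧
      ‖((AffineMap.homothety a r) y - a) -
        (inner ℝ ((AffineMap.homothety a r) y - a) e : ℝ) • e‖ ≤ δ
    rw [h2, real_inner_smul_left]
    constructor
    · rw [abs_mul, abs_of_pos hr0]
      calc r * |(inner ℝ (y - a) e : ℝ)| ≤ 1 / 4 * 2 :=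
            mul_le_mul hr1 h4 (abs_nonneg _) (by norm_num)
        _ = 1 / 2 := by norm_num
    · rw [← smul_smul, ← smul_sub, norm_smul, Real.norm_of_nonneg hr0.le]
      calc r * ‖(y - a) - (inner ℝ (y - a) e : ℝ) • e‖
          ≤ r * ((2 * A + 2) * δ + 1 / 2 * (A * δ)) :=
            mul_le_mul_of_nonneg_left (by linarith) hr0.le
        _ ≤ r * (4 * (A + 1)) * δ := by
            have : (2 * A + 2) * δ + 1 / 2 * (A * δ) ≤ 4 * (A + 1) * δ := by nlinarith
            nlinarith
        _ = δ := by rw [hr4, one_mul]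
  have h2 := Measure.addHaar_image_homothety (volume : Measure (E n)) a r
    (tube ((2 * A + 2) * δ) a u)
  rw [finrank_euclideanSpace, Fintype.card_fin, abs_of_pos (by positivity)] at h2
  rw [← h2]
  exact measure_mono h1

/-- tubes whose directions are close to a given one -/
theorem near_small {n : ℕ} {K : Set (E n)} (hK : IsCompact K) {u : E n} (hu : ‖u‖ = 1)
    (h0 : ∀ a, volume {t : ℝ | a + t • u ∈ K} = 0) {A : ℝ} (hA : 0 ≤ A) {ε : ℝ} (hε : 0 < ε) :
    ∃ δ₀ : ℝ, 0 < δ₀ ∧ ∀ δ : ℝ, 0 < δ → δ ≤ δ₀ → ∀ a e : E n, ‖e‖ = 1 → ‖e - u‖ ≤ A * δ →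
      volume (tube δ a e ∩ cthickening (A * δ) K) ≤ ENNReal.ofReal ε * volume (tube δ a e) := by
  set r : ℝ := 1 / (4 * (A + 1)) with hr
  have hr0 : 0 < r := by positivity
  obtain ⟨δ₁, hδ₁, hsm⟩ := tubes_small hK hu h0 (lam' := ε * r ^ n / 2) (by positivity)
  refine ⟨min (δ₁ / (2 * A + 2)) (1 / (8 * (A + 1))), by positivity, ?_⟩
  intro δ hδ hδ0 a e he heu
  have h1 : (2 * A + 2) * δ ≤ δ₁ := by
    have := hδ0.trans (min_le_left _ _)
    rw [le_div_iff₀ (by positivity)] at this
    linarith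
  have h2 : 8 * (A + 1) * δ ≤ 1 := by
    have := hδ0.trans (min_le_right _ _)
    rw [le_div_iff₀ (by positivity)] at this
    linarith
  have hAδ : 0 ≤ A * δ := by positivity
  have h3 : (2 * A + 2) * δ ≤ 1 := by nlinarith
  have hδ1 : δ ≤ 1 := by nlinarith
  have hAδ1 : 2 * (A * δ) ≤ 1 / 4 := by nlinarith
  have huu : (inner ℝ u u : ℝ) = 1 := by
    rw [real_inner_self_eq_norm_sq, hu]
    norm_num
  -- the tube is covered by two tubes parallel to `u`
  have hcov : tube δ a e ∩ cthickening (A * δ) K ⊆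
      (tube ((2 * A + 2) * δ) (a + (1 / 4 : ℝ) • u) u ∩ cthickening ((2 * A + 2) * δ) K) ∪
      (tube ((2 * A + 2) * δ) (a + (-(1 / 4) : ℝ) • u) u ∩ cthickening ((2 * A + 2) * δ) K) := by
    rintro y ⟨hy, hyK⟩
    have hyK' : y ∈ cthickening ((2 * A + 2) * δ) K := by
      apply cthickening_mono _ K hyK
      nlinarith
    have h4 := norm_le_of_mem hδ1 he hy
    have h5 : |(inner ℝ (y - a) u : ℝ)| ≤ 3 / 4 := by
      have h6 : (inner ℝ (y - a) u : ℝ) = inner ℝ (y - a) e - inner ℝ (y - a) (e - u) := by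
        rw [inner_sub_right]
        ring
      have h7 := abs_real_inner_le_norm (y - a) (e - u)
      have h8 : ‖y - a‖ * ‖e - u‖ ≤ 2 * (A * δ) :=
        mul_le_mul h4 heu (norm_nonneg _) (by norm_num)
      have h9 := abs_sub (inner ℝ (y - a) e : ℝ) (inner ℝ (y - a) (e - u))
      rw [h6]
      linarith [hy.1]
    have h6 : ‖(y - a) - (inner ℝ (y - a) u : ℝ) • u‖ ≤ (2 * A + 2) * δ := by
      have h7 := perp_near hu (y - a) (κ := A * δ) (by rw [norm_sub_rev]; exact heu)
      have h8 : |(inner ℝ (y - a) e : ℝ)| * (A * δ) ≤ 1 / 2 * (A * δ) :=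
        mul_le_mul_of_nonneg_right hy.1 (by positivity)
      have h9 := hy.2
      nlinarith
    have hshift : ∀ s : ℝ, (inner ℝ (y - (a + s • u)) u : ℝ) = inner ℝ (y - a) u - s ∧
        (y - (a + s • u)) - (inner ℝ (y - (a + s • u)) u : ℝ) • u =
          (y - a) - (inner ℝ (y - a) u : ℝ) • u := by
      intro s
      have h7 : y - (a + s • u) = (y - a) - s • u := by abel
      have h8 : (inner ℝ (y - (a + s • u)) u : ℝ) = inner ℝ (y - a) u - s := by
        rw [h7, inner_sub_left, real_inner_smul_left, huu, mul_one]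
      refine ⟨h8, ?_⟩
      rw [h8, h7, sub_smul]
      abel
    rw [abs_le] at h5
    by_cases hs : (0 : ℝ) ≤ inner ℝ (y - a) u
    · left
      refine ⟨?_, hyK'⟩
      show |inner ℝ (y - (a + (1 / 4 : ℝ) • u)) u| ≤ 1 / 2 ∧
        ‖(y - (a + (1 / 4 : ℝ) • u)) - (inner ℝ (y - (a + (1 / 4 : ℝ) • u)) u : ℝ) • u‖ ≤ _
      rw [(hshift _).2, (hshift _).1]
      refine ⟨?_, h6⟩
      rw [abs_le]
      constructor <;> linarith [h5.2]
    · right
      rw [not_le] at hs
      refine ⟨?_, hyK'⟩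
      show |inner ℝ (y - (a + (-(1 / 4) : ℝ) • u)) u| ≤ 1 / 2 ∧
        ‖(y - (a + (-(1 / 4) : ℝ) • u)) - (inner ℝ (y - (a + (-(1 / 4) : ℝ) • u)) u : ℝ) • u‖ ≤ _
      rw [(hshift _).2, (hshift _).1]
      refine ⟨?_, h6⟩
      rw [abs_le]
      constructor <;> linarith [h5.1]
  have hone : ∀ c : E n, volume (tube ((2 * A + 2) * δ) c u ∩ cthickening ((2 * A + 2) * δ) K) ≤
      ENNReal.ofReal (ε / 2) * volume (tube δ a e) := by
    intro c
    refine (hsm _ h1 c).trans ?_
    have h4 : ENNReal.ofReal (ε * r ^ n / 2) = ENNReal.ofReal (ε / 2) * ENNReal.ofReal (r ^ n) := by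
      rw [← ENNReal.ofReal_mul (by positivity)]
      congr 1
      ring
    rw [h4, mul_assoc, vol_translate _ a c u]
    gcongr
    exact vol_compare hA hδ h3 hu he heu
  calc volume (tube δ a e ∩ cthickening (A * δ) K) ≤
        ENNReal.ofReal (ε / 2) * volume (tube δ a e) +
          ENNReal.ofReal (ε / 2) * volume (tube δ a e) :=
        (measure_mono hcov).trans ((measure_union_le _ _).trans (add_le_add (hone _) (hone _)))
    _ = ENNReal.ofReal ε * volume (tube δ a e) := by
        rw [← add_mul, ← ENNReal.ofReal_add (by positivity) (by positivity), add_halves]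

/-- In some orthonormal basis, the minima of `n` points of `K` at mutual distances at most `ρ` form a
null set, or the maxima do. -/
def NullExtrema {n : ℕ} (ρ : ℝ) (K : Set (E n)) : Prop :=
  ∃ b : OrthonormalBasis (Fin n) ℝ (E n), volume (Minima ρ b K) = 0 ∨ volume (Maxima ρ b K) = 0

/-- For all `A` and `ε > 0` and all large `N`: every translate `T` of every tube of radius `1 / N` whose
direction `e` has distance at most `A / N` from the unit vector `u` has at most the proportion `ε` of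
its volume in the closed `A / N`-neighbourhood of `K`. -/
def TubesAvoid {n : ℕ} (K : Set (E n)) (u : E n) : Prop :=
  ∀ A ε : ℝ, 0 ≤ A → 0 < ε → ∃ N₀ : ℝ, 0 < N₀ ∧ ∀ N : ℝ, N₀ ≤ N → ∀ a e : E n, ‖e‖ = 1 →
    ‖e - u‖ ≤ A / N →
      volume (tube (1 / N) a e ∩ cthickening (A / N) K) ≤ ENNReal.ofReal ε * volume (tube (1 / N) a e)

theorem avoid_of_null {n : ℕ} {K : Set (E n)} (hK : IsCompact K) {w : E n} (hw : w ≠ 0)
    (h0 : NullOnLines K w) : TubesAvoid K (‖w‖⁻¹ • w) := by
  have hw0 : 0 < ‖w‖ := norm_pos_iff.2 hw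
  have hu : ‖(‖w‖⁻¹ • w : E n)‖ = 1 := by
    rw [norm_smul, norm_inv, norm_norm, inv_mul_cancel₀ hw0.ne']
  have hlines : ∀ a, volume {t : ℝ | a + t • (‖w‖⁻¹ • w) ∈ K} = 0 := by
    intro a
    have h1 : {t : ℝ | a + t • (‖w‖⁻¹ • w) ∈ K} =
        (fun t => t * ‖w‖⁻¹) ⁻¹' {t : ℝ | a + t • w ∈ K} := by
      ext t
      simp only [mem_ofPred_eq, mem_preimage, smul_smul]
    rw [h1, Real.volume_preimage_mul_right (inv_ne_zero hw0.ne'), h0 a, mul_zero]
  intro A ε hA hε
  obtain ⟨δ₀, hδ₀, h⟩ := near_small hK hu hlines hA hε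
  refine ⟨1 / δ₀, by positivity, ?_⟩
  intro N hN a e he heu
  have hN0 : 0 < N := lt_of_lt_of_le (by positivity) hN
  have h1 : 1 / N ≤ δ₀ := by
    rw [div_le_iff₀ hδ₀] at hN
    rw [div_le_iff₀ hN0]
    linarith
  have h2 : A / N = A * (1 / N) := by ring
  rw [h2] at heu ⊢
  exact h (1 / N) (by positivity) h1 a e he heu

/-- **Tubes near null sets closed under an order operation.** Let `n ≥ 1`, `0 < ρ ≤ 1`, and let `K` be
a measurable subset of `ℝ ^ n` which is a null set and is closed, in some orthonormal basis and within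
distance `ρ`, under some order operation that is not a projection; or such that in some orthonormal
basis the coordinatewise minima (or the maxima) of `n` points of `K` at mutual distances at most `ρ`
form a null set.  Then for almost every vector `w` every line parallel to `w` meets `K` in a set of
length zero.  If `K` is compact, then for almost every `w`, all `A` and `ε > 0` and all large `N`:
every translate `T` of every tube of length `1` and radius `1 / N` whose direction `e` satisfies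
`‖e - w / ‖w‖‖ ≤ A / N` has at most the proportion `ε` of its volume in the `A / N`-neighbourhood of
`K`. -/
theorem result (n : ℕ) (hn : 1 ≤ n) (ρ : ℝ) (hρ : 0 < ρ) (hρ1 : ρ ≤ 1) (K : Set (E n))
    (hK : MeasurableSet K) (h : NullExtrema ρ K ∨ (OrderClosed ρ K ∧ volume K = 0)) :
    ∀ᵐ w : E n, NullOnLines K w ∧ (IsCompact K → TubesAvoid K (‖w‖⁻¹ • w)) := by
  have hne : ∀ᵐ w : E n, w ≠ 0 := by
    have hpos : 0 < Module.finrank ℝ (E n) := by
      rw [finrank_euclideanSpace, Fintype.card_fin]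
      omega
    have hnt : Nontrivial (E n) := Module.finrank_pos_iff.1 hpos
    exact Measure.ae_ne volume 0
  filter_upwards [limit_case n hn hρ hρ1 hK h, hne] with w hw hw0
  exact ⟨hw, fun hKc => avoid_of_null hKc hw0 hw⟩

end Pool.Agent.Results.MP_ac5134_an.NullOrderClosed
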